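import Mathlib

set_option autoImplicit false

namespace Pool.Agent.Results.MP_e44225_nt.LogErrorFails

open Finset

/-- logarithmic Weil height of the point [x : 1] of the projective line over the rationals,
attached to O(1) -/
noncomputable def ht (x : ℚ) : ℝ := Real.log (max (|x.num| : ℝ) (x.den : ℝ))

/-- local Weil function, for an absolute value v, of the divisor D = [0] + [1] + [∞], the zero set
of F(x0, x1) = x0 x1 (x0 - x1), at the point [x : 1]:
log (max(v x0, v x1)^3 / v (F(x0, x1))) -/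
noncomputable def weil (v : ℚ → ℝ) (x : ℚ) : ℝ :=
  Real.log ((max (v x) (v 1)) ^ 3 / v (x * 1 * (x - 1)))

/-- proximity function of D = [0] + [1] + [∞] relative to the set of places consisting of the
real place and the primes in T -/
noncomputable def prox (T : Finset ℕ) (x : ℚ) : ℝ :=
  weil (fun y => |(y : ℝ)|) x + ∑ p ∈ T, weil (fun y => (padicNorm p y : ℝ)) x

/-- log⁺ t = log max {1, t} -/
noncomputable def logp (t : ℝ) : ℝ := Real.log (max 1 t)

lemma sum_log_padic (T : Finset ℕ) (hT : ∀ p ∈ T, p.Prime) (n : ℕ) (hn : n ≠ 0)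
    (hs : n.primeFactors ⊆ T) :
    ∑ p ∈ T, Real.log (padicNorm p (n : ℚ) : ℝ) = - Real.log n := by
  rw [Real.log_nat_eq_sum_factorization,
    Finsupp.sum_of_support_subset _ (s := T) (by simpa using hs) _ (by simp),
    ← Finset.sum_neg_distrib]
  refine Finset.sum_congr rfl fun p hp => ?_
  have := Fact.mk (hT p hp)
  rw [padicNorm.eq_zpow_of_nonzero (by exact_mod_cast hn), padicValRat.of_nat,
    Nat.factorization_def _ (hT p hp), Rat.cast_zpow, Real.log_zpow]
  simp

lemma weil_padic (p : ℕ) (hp : p.Prime) (a b : ℕ) (ha : a ≠ 0) (hb : b ≠ 0) (hab : a.Coprime b)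
    (hne : (a : ℚ) / b ≠ 1) :
    - Real.log (padicNorm p (a : ℚ) : ℝ) - Real.log (padicNorm p (b : ℚ) : ℝ) ≤
      weil (fun y => (padicNorm p y : ℝ)) ((a : ℚ) / b) := by
  have := Fact.mk hp
  have ha' : (a : ℚ) ≠ 0 := by exact_mod_cast ha
  have hb' : (b : ℚ) ≠ 0 := by exact_mod_cast hb
  have hA : (0 : ℝ) < padicNorm p (a : ℚ) := by
    exact_mod_cast lt_of_le_of_ne (padicNorm.nonneg _) (padicNorm.nonzero ha').symm
  have hB : (0 : ℝ) < padicNorm p (b : ℚ) := by
    exact_mod_cast lt_of_le_of_ne (padicNorm.nonneg _) (padicNorm.nonzero hb').symm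
  have hE : (0 : ℝ) < padicNorm p ((a : ℚ) / b - 1) := by
    exact_mod_cast lt_of_le_of_ne (padicNorm.nonneg _) (padicNorm.nonzero (sub_ne_zero.2 hne)).symm
  have hA1 : (padicNorm p (a : ℚ) : ℝ) ≤ 1 := by exact_mod_cast padicNorm.of_nat a
  have hB1 : (padicNorm p (b : ℚ) : ℝ) ≤ 1 := by exact_mod_cast padicNorm.of_nat b
  have hor : (padicNorm p (a : ℚ) : ℝ) = 1 ∨ (padicNorm p (b : ℚ) : ℝ) = 1 := by
    by_cases h : p ∣ a
    · right
      have : ¬ p ∣ b := fun h' => hp.one_lt.ne' (Nat.eq_one_of_dvd_coprimes hab h h')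
      exact_mod_cast (padicNorm.nat_eq_one_iff b).2 this
    · left
      exact_mod_cast (padicNorm.nat_eq_one_iff a).2 h
  have hle : (padicNorm p ((a : ℚ) / b - 1) : ℝ) ≤
      max ((padicNorm p (a : ℚ) : ℝ) / padicNorm p (b : ℚ)) 1 := by
    have := padicNorm.sub (p := p) (q := (a : ℚ) / b) (r := 1)
    rw [padicNorm.div, padicNorm.one] at this
    exact_mod_cast this
  have hmax : max ((padicNorm p (a : ℚ) : ℝ) / padicNorm p (b : ℚ)) 1 =
      1 / padicNorm p (b : ℚ) := by
    rcases hor with h | h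
    · rw [h, max_eq_left]
      rw [le_div_iff₀ hB]; linarith
    · rw [h, div_one, div_one, max_eq_right hA1]
  unfold weil
  simp only [mul_one, padicNorm.mul, padicNorm.div, padicNorm.one]
  push_cast
  rw [hmax] at hle ⊢
  generalize ((padicNorm p (a : ℚ) : ℚ) : ℝ) = A at *
  generalize ((padicNorm p (b : ℚ) : ℚ) : ℝ) = B at *
  generalize ((padicNorm p ((a : ℚ) / b - 1) : ℚ) : ℝ) = E at *
  have e1 : -Real.log A - Real.log B = Real.log (1 / (A * B)) := by
    rw [one_div, Real.log_inv, Real.log_mul hA.ne' hB.ne']; ring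
  rw [e1]
  apply Real.log_le_log (by positivity)
  rw [div_le_div_iff₀ (by positivity) (by positivity)]
  have h2 : A / B * E ≤ A / B * (1 / B) := mul_le_mul_of_nonneg_left hle (by positivity)
  calc 1 * (A / B * E) ≤ A / B * (1 / B) := by linarith
    _ = (1 / B) ^ 3 * (A * B) := by field_simp

lemma prox_ge (T : Finset ℕ) (hT : ∀ p ∈ T, p.Prime) (a b : ℕ) (hb : b ≠ 0) (hlt : b < a)
    (hab : a.Coprime b) (hsa : a.primeFactors ⊆ T) (hsb : b.primeFactors ⊆ T) :
    2 * Real.log a - Real.log ((a : ℝ) / b - 1) ≤ prox T ((a : ℚ) / b) := by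
  have ha : a ≠ 0 := by omega
  have hb' : (0 : ℝ) < b := by positivity
  have ha' : (0 : ℝ) < a := by positivity
  have hx : (1 : ℝ) < (a : ℝ) / b := by
    rw [lt_div_iff₀ hb', one_mul]; exact_mod_cast hlt
  have hne : (a : ℚ) / b ≠ 1 := by
    intro h
    have : ((a : ℚ) / b : ℚ) = (1 : ℝ) := by rw [h]; simp
    push_cast at this
    linarith
  have h1 : ∑ p ∈ T, (- Real.log (padicNorm p (a : ℚ) : ℝ) - Real.log (padicNorm p (b : ℚ) : ℝ)) ≤
      ∑ p ∈ T, weil (fun y => (padicNorm p y : ℝ)) ((a : ℚ) / b) :=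
    Finset.sum_le_sum fun p hp => weil_padic p (hT p hp) a b ha hb hab hne
  rw [Finset.sum_sub_distrib, Finset.sum_neg_distrib, sum_log_padic T hT a ha hsa,
    sum_log_padic T hT b hb hsb] at h1
  have h2 : weil (fun y => |(y : ℝ)|) ((a : ℚ) / b) =
      2 * (Real.log a - Real.log b) - Real.log ((a : ℝ) / b - 1) := by
    unfold weil
    push_cast
    rw [abs_one, abs_of_pos (by linarith : (0 : ℝ) < a / b), max_eq_left hx.le, mul_one,
      abs_of_pos (mul_pos (by linarith) (by linarith)), Real.log_div (by positivity)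
        (mul_pos (by linarith) (by linarith)).ne', Real.log_pow,
      Real.log_mul (by linarith) (by linarith), Real.log_div ha'.ne' hb'.ne']
    push_cast
    ring
  have h3 : Real.log b ≤ Real.log a := Real.log_le_log hb' (by exact_mod_cast hlt.le)
  unfold prox
  rw [h2]
  linarith

lemma ht_eq (a b : ℕ) (hb : b ≠ 0) (hlt : b < a) (hab : a.Coprime b) :
    ht ((a : ℚ) / b) = Real.log a := by
  have h1 : ((a : ℚ) / b).num = a := by
    have := Rat.num_div_eq_of_coprime (a := a) (b := b) (by positivity) (by simpa using hab)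
    simpa using this
  have h2 : ((a : ℚ) / b).den = b := by
    have := Rat.den_div_eq_of_coprime (a := a) (b := b) (by positivity) (by simpa using hab)
    simpa using this
  unfold ht
  rw [h1, h2]
  push_cast
  rw [abs_of_nonneg (by positivity), max_eq_left (by exact_mod_cast hlt.le)]

lemma pigeon (T : Finset ℕ) (hT : ∀ p ∈ T, p.Prime) (hc : 1 ≤ T.card) (N : ℕ) (hN : 1 ≤ N) :
    ∃ a b : ℕ, b ≠ 0 ∧ b < a ∧ a.Coprime b ∧ a.primeFactors ⊆ T ∧ b.primeFactors ⊆ T ∧
      Real.log a ≤ N * Real.log (∏ p ∈ T, p : ℕ) ∧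
      Real.log ((a : ℝ) / b) < (N * Real.log (∏ p ∈ T, p : ℕ) + 1) / (N : ℝ) ^ T.card := by
  set P : ℕ := ∏ p ∈ T, p with hP
  have hP0 : P ≠ 0 := Finset.prod_ne_zero_iff.2 fun p hp => (hT p hp).ne_zero
  have hPf : P.primeFactors = T := Nat.primeFactors_prod hT
  have hPN : (P ^ N).primeFactors = T := by rw [Nat.primeFactors_pow _ (by omega), hPf]
  set L : ℝ := Real.log P
  have hL : 0 ≤ L := Real.log_natCast_nonneg P
  have hNs : (0 : ℝ) < (N : ℝ) ^ T.card := by positivity
  set δ : ℝ := (N * L + 1) / (N : ℝ) ^ T.card with hδ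
  have hδ0 : 0 < δ := by positivity
  have hcard : (range (N ^ T.card)).card < (P ^ N).divisors.card := by
    rw [card_range, Nat.card_divisors (pow_ne_zero _ hP0), hPN]
    calc N ^ T.card < (N + 1) ^ T.card := Nat.pow_lt_pow_left (by omega) (by omega)
      _ ≤ _ := by
        apply Finset.pow_card_le_prod
        intro p hp
        rw [Nat.factorization_pow]
        have : 0 < P.factorization p :=
          (hT p hp).factorization_pos_of_dvd hP0 (Finset.dvd_prod_of_mem _ hp)
        simp only [Finsupp.smul_apply, smul_eq_mul]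
        nlinarith
  have hlog : ∀ n ∈ (P ^ N).divisors, Real.log n ≤ N * L := by
    intro n hn
    have h1 := Nat.divisor_le hn
    have h2 := Nat.pos_of_mem_divisors hn
    calc Real.log n ≤ Real.log ((P : ℝ) ^ N) :=
          Real.log_le_log (by exact_mod_cast h2) (by exact_mod_cast h1)
      _ = N * L := by rw [Real.log_pow]
  obtain ⟨m, hm, n, hn, hmn, hf⟩ := Finset.exists_ne_map_eq_of_card_lt_of_maps_to hcard
    (f := fun n : ℕ => ⌊Real.log n / δ⌋₊) (by
      intro n hn
      have hn' : n ∈ (P ^ N).divisors := hn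
      simp only [coe_range, Set.mem_Iio]
      rw [Nat.floor_lt (div_nonneg (Real.log_natCast_nonneg n) hδ0.le), div_lt_iff₀ hδ0, hδ]
      push_cast
      rw [mul_div_cancel₀ _ hNs.ne']
      linarith [hlog n hn'])
  wlog hlt : n < m generalizing m n
  · exact this n hn m hm hmn.symm hf.symm (by omega)
  have hm0 := Nat.pos_of_mem_divisors hm
  have hn0 := Nat.pos_of_mem_divisors hn
  have hg : 0 < m.gcd n := Nat.gcd_pos_of_pos_left _ hm0
  obtain ⟨a, b, hab, ea, eb⟩ := Nat.exists_coprime m n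
  have hb0 : b ≠ 0 := by rintro rfl; simp at eb; omega
  have hba : b < a := by
    by_contra h
    have : a * m.gcd n ≤ b * m.gcd n := Nat.mul_le_mul_right _ (by omega)
    omega
  have hda : a ∣ m := ⟨_, ea⟩
  have hdb : b ∣ n := ⟨_, eb⟩
  refine ⟨a, b, hb0, hba, hab, ?_, ?_, ?_, ?_⟩
  · rw [← hPN]
    exact Nat.primeFactors_mono (hda.trans (Nat.dvd_of_mem_divisors hm)) (pow_ne_zero _ hP0)
  · rw [← hPN]
    exact Nat.primeFactors_mono (hdb.trans (Nat.dvd_of_mem_divisors hn)) (pow_ne_zero _ hP0)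
  · refine le_trans (Real.log_le_log (by exact_mod_cast (by omega : 0 < a)) ?_) (hlog m hm)
    exact_mod_cast Nat.le_of_dvd hm0 hda
  · have e : (a : ℝ) / b = (m : ℝ) / n := by
      have h1 : (m : ℝ) = a * (m.gcd n : ℕ) := by exact_mod_cast ea
      have h2 : (n : ℝ) = b * (m.gcd n : ℕ) := by exact_mod_cast eb
      rw [h1, h2]
      have : ((m.gcd n : ℕ) : ℝ) ≠ 0 := by positivity
      field_simp
    rw [e, Real.log_div (by positivity) (by positivity)]
    have h1 := Nat.lt_floor_add_one (Real.log m / δ)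
    have h2 := Nat.floor_le (div_nonneg (Real.log_natCast_nonneg n) hδ0.le)
    rw [hf] at h1
    have h3 : Real.log m / δ - Real.log n / δ < 1 := by linarith
    rw [← sub_div, div_lt_iff₀ hδ0] at h3
    linarith

theorem result : ∀ C : ℝ, 0 < C → ∃ T : Finset ℕ, (∀ p ∈ T, p.Prime) ∧
    ∀ (hK hA m : ℚ → ℝ) (B : ℝ), (∀ x, |hK x - (-2) * ht x| ≤ B) → (∀ x, |hA x - ht x| ≤ B) →
      (∀ x, x ≠ 0 → x ≠ 1 → |m x - prox T x| ≤ B) →
      {x : ℚ | x ≠ 0 ∧ x ≠ 1 ∧
        ¬ (hK x + m x < C * logp (hA x) + Real.log |(NumberField.discr ℚ : ℝ)|)}.Infinite := by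
  intro C hC
  obtain ⟨T, hT, hcard⟩ := Nat.infinite_setOfPred_prime.exists_subset_card_eq (⌈C⌉₊ + 2)
  have hT' : ∀ p ∈ T, p.Prime := fun p hp => hT hp
  refine ⟨T, hT', fun hK hA m B h1 h2 h3 => ?_⟩
  have hB : 0 ≤ B := le_trans (abs_nonneg _) (h1 0)
  set L : ℝ := Real.log (∏ p ∈ T, p : ℕ)
  have hL : 0 ≤ L := Real.log_natCast_nonneg _
  apply Set.Infinite.of_image (fun x : ℚ => 1 / ((x : ℝ) - 1))
  apply Set.infinite_of_forall_exists_gt
  intro Q
  set W : ℝ := L + B + 1 with hW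
  have hW1 : 1 ≤ W := by linarith
  set R : ℝ := C * Real.log W + Real.log (2 * (L + 1)) + 2 * B with hR
  obtain ⟨N, hN⟩ := exists_nat_ge (max (Real.exp R) (2 * (L + 1) * (|Q| + 1)))
  have hN1 : Real.exp R ≤ N := le_trans (le_max_left _ _) hN
  have hN2 : 2 * (L + 1) * (|Q| + 1) ≤ N := le_trans (le_max_right _ _) hN
  have hQ : 0 ≤ |Q| := abs_nonneg Q
  have hN3 : 2 * (L + 1) ≤ N := by nlinarith
  have hN4 : (1 : ℝ) ≤ N := by linarith
  have hN0 : (0 : ℝ) < N := by linarith
  obtain ⟨a, b, hb0, hba, hab, hsa, hsb, hla, hlx⟩ :=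
    pigeon T hT' (by omega) N (by exact_mod_cast hN4)
  rw [hcard] at hlx
  have hb' : (0 : ℝ) < b := by positivity
  have hx : (1 : ℝ) < (a : ℝ) / b := by
    rw [lt_div_iff₀ hb', one_mul]; exact_mod_cast hba
  set y : ℝ := (a : ℝ) / b with hy
  set k : ℕ := ⌈C⌉₊
  have hk : C ≤ k := Nat.le_ceil C
  have hpk : (1 : ℝ) ≤ (N : ℝ) ^ k := one_le_pow₀ hN4
  set δ : ℝ := (L + 1) / (N : ℝ) ^ (k + 1) with hδ
  have hδ1 : (N * L + 1) / (N : ℝ) ^ (k + 2) ≤ δ := by
    rw [hδ, div_le_div_iff₀ (by positivity) (by positivity)]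
    have : (N : ℝ) ^ (k + 2) = N * (N : ℝ) ^ (k + 1) := by ring
    rw [this]
    have h5 : (0 : ℝ) < (N : ℝ) ^ (k + 1) := by positivity
    nlinarith
  have hδ2 : δ ≤ (L + 1) / N := by
    rw [hδ]
    apply div_le_div_of_nonneg_left (by linarith) hN0
    rw [pow_succ]
    nlinarith
  have hδ3 : (L + 1) / N ≤ 1 / 2 := by
    rw [div_le_div_iff₀ hN0 (by norm_num)]; linarith
  have hδ0 : 0 < δ := by positivity
  have hy1 : y - 1 < 2 * δ := by
    have h4 := Real.one_sub_inv_le_log_of_pos (by linarith : 0 < y)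
    have h5 : 1 - y⁻¹ < δ := by linarith
    have h6 : y - 1 < δ * y := by
      have := mul_lt_mul_of_pos_right h5 (by linarith : 0 < y)
      rw [sub_mul, inv_mul_cancel₀ (by linarith)] at this
      linarith
    have h7 : y < 2 := by nlinarith
    nlinarith
  have hcast : (((a : ℚ) / b : ℚ) : ℝ) = y := by push_cast; rfl
  have hx0 : (a : ℚ) / b ≠ 0 := by
    intro h; rw [h] at hcast; simp at hcast; linarith
  have hx1 : (a : ℚ) / b ≠ 1 := by
    intro h; rw [h] at hcast; simp at hcast; linarith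
  refine ⟨1 / (y - 1), ⟨(a : ℚ) / b, ⟨hx0, hx1, ?_⟩, by simp only [hcast]⟩, ?_⟩
  · rw [NumberField.discr_rat, not_lt]
    have e1 := h1 ((a : ℚ) / b)
    have e2 := h2 ((a : ℚ) / b)
    have e3 := h3 _ hx0 hx1
    have e4 := prox_ge T hT' a b hb0 hba hab hsa hsb
    rw [ht_eq a b hb0 hba hab] at e1 e2
    rw [abs_le] at e1 e2 e3
    have e5 : Real.log (y - 1) ≤ Real.log (2 * (L + 1)) - (k + 1) * Real.log N := by
      calc Real.log (y - 1) ≤ Real.log (2 * (L + 1) / (N : ℝ) ^ (k + 1)) := by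
            apply Real.log_le_log (by linarith)
            rw [mul_div_assoc]; linarith
        _ = _ := by
            rw [Real.log_div (by positivity) (by positivity), Real.log_pow]; push_cast; ring
    have e6 : logp (hA ((a : ℚ) / b)) ≤ Real.log N + Real.log W := by
      unfold logp
      rw [← Real.log_mul hN0.ne' (by positivity)]
      apply Real.log_le_log (lt_of_lt_of_le one_pos (le_max_left _ _))
      apply max_le
      · nlinarith
      · nlinarith
    have e7 : R ≤ Real.log N := by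
      rw [Real.le_log_iff_exp_le hN0]; exact hN1
    have e8 : 0 ≤ Real.log N := Real.log_nonneg hN4
    have e9 : C * logp (hA ((a : ℚ) / b)) ≤ C * (Real.log N + Real.log W) :=
      mul_le_mul_of_nonneg_left e6 hC.le
    have e10 : C * Real.log N ≤ k * Real.log N := mul_le_mul_of_nonneg_right hk e8
    simp only [Int.cast_one, abs_one, Real.log_one, add_zero]
    nlinarith
  · rw [lt_div_iff₀ (by linarith)]
    have h4 : y - 1 < 2 * (L + 1) / N := by rw [mul_div_assoc]; linarith
    rw [lt_div_iff₀ hN0] at h4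
    have h5 : Q ≤ |Q| := le_abs_self Q
    have h6 : (y - 1) * (2 * (L + 1) * (|Q| + 1)) ≤ (y - 1) * N :=
      mul_le_mul_of_nonneg_left hN2 (by linarith)
    have h7 : (y - 1) * (|Q| + 1) < 1 := by nlinarith
    nlinarith

end Pool.Agent.Results.MP_e44225_nt.LogErrorFails
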